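import Pool.Agent.H.MP_1c7d4c_an.C

namespace Pool.Agent.Results.MP_1c7d4c_an.Q1No
open Polynomial

theorem result : ∃ (n : ℕ) (x : Fin n → ℝ), 1 ≤ n ∧ StrictMono x ∧
    (∀ j, -1 ≤ x j ∧ x j ≤ 1) ∧ (∀ j, x j = - x (Fin.rev j)) ∧
    (∀ k : ℕ, k ≤ n → ∀ t : ℝ, -1 < t → t < 1 →
      |eval t (derivative^[k] (∏ j, (X - C (x j)) : ℝ[X]))| ≤
        eval 1 (derivative^[k] (∏ j, (X - C (x j)) : ℝ[X]))) ∧
    ∃ t y : ℝ, -1 ≤ t ∧ t ≤ 1 ∧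
      ‖aeval ((1 : ℂ) + (y : ℂ) * Complex.I) (∏ j, (X - C (x j)) : ℝ[X])‖ <
        ‖aeval ((t : ℂ) + (y : ℂ) * Complex.I) (∏ j, (X - C (x j)) : ℝ[X])‖ := by
  refine ⟨42, H.MP_1c7d4c_an.xf, by norm_num, ?_, ?_, ?_, ?_, 0, 63 / 1200, by norm_num,
    by norm_num, ?_⟩
  · intro i j h
    have : (H.MP_1c7d4c_an.zf i : ℝ) < H.MP_1c7d4c_an.zf j := by
      exact_mod_cast H.MP_1c7d4c_an.zf_mono i j h
    unfold H.MP_1c7d4c_an.xf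
    linarith
  · intro j
    have h := H.MP_1c7d4c_an.zf_bd j
    have h1 : (-1200 : ℝ) ≤ H.MP_1c7d4c_an.zf j := by exact_mod_cast h.1
    have h2 : (H.MP_1c7d4c_an.zf j : ℝ) ≤ 1200 := by exact_mod_cast h.2
    unfold H.MP_1c7d4c_an.xf
    constructor <;> linarith
  · intro j
    unfold H.MP_1c7d4c_an.xf
    rw [H.MP_1c7d4c_an.zf_rev j]; push_cast; ring
  · intro k _ t h0 h1
    exact H.MP_1c7d4c_an.QQ_bound k t h0 h1
  · have := H.MP_1c7d4c_an.viol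
    rw [Complex.ofReal_one] at this
    exact this

end Pool.Agent.Results.MP_1c7d4c_an.Q1No
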